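import Pool.Agent.H28.MCL.Targets

/-!
# Row MXL: the maximal inequality, short intervals on the left
-/

set_option autoImplicit false

namespace Pool.Agent.H3.MCL

open Pool.Agent.H28.MCL Finset Filter

/-- **Row MXL.** -/
theorem mxl : T_MXL := by
  intro b θ x y S hb hθ hx hS hH
  have hbn : ∀ n : ℕ, 0 ≤ b n / n := fun n => div_nonneg (hb n) (Nat.cast_nonneg n)
  have h2θ : 0 ≤ 2 / θ := by positivity
  have key : ∀ v : ℕ, ∑ N ∈ S.filter (fun N => N ≤ v), (1 : ℝ) / N ≤
      2 / θ * ∑ n ∈ Finset.Icc ((x + 1) / 2) v, b n / n := by
    intro v
    induction v using Nat.strong_induction_on with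
    | _ v ih =>
      by_cases hv : v ∈ S
      · obtain ⟨H, hH1, hH2, hH3⟩ := hH v hv
        have hxv : x ≤ v := (Finset.mem_Icc.1 (hS hv)).1
        have hvp : (0 : ℝ) < v := by
          have : 0 < v := by omega
          exact_mod_cast this
        have h1 := ih (v - H) (by omega)
        -- the part in `(v - H, v]`
        have h2 : ∑ N ∈ S.filter (fun N => N ≤ v), (1 : ℝ) / N ≤
            ∑ N ∈ S.filter (fun N => N ≤ v - H), (1 : ℝ) / N +
              ∑ N ∈ Finset.Ioc (v - H) v, (1 : ℝ) / N := by
          rw [← Finset.sum_union]
          · refine Finset.sum_le_sum_of_subset_of_nonneg ?_ (fun _ _ _ => by positivity)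
            intro N hN
            rw [Finset.mem_filter] at hN
            rw [Finset.mem_union, Finset.mem_filter, Finset.mem_Ioc]
            by_cases h : N ≤ v - H
            · exact Or.inl ⟨hN.1, h⟩
            · exact Or.inr ⟨by omega, hN.2⟩
          · rw [Finset.disjoint_left]
            intro N hN hN'
            rw [Finset.mem_filter] at hN
            rw [Finset.mem_Ioc] at hN'
            omega
        have h3 : ∑ N ∈ Finset.Ioc (v - H) v, (1 : ℝ) / N ≤ H * (2 / v) := by
          have h4 : ∀ N ∈ Finset.Ioc (v - H) v, (1 : ℝ) / N ≤ 2 / v := by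
            intro N hN
            rw [Finset.mem_Ioc] at hN
            have h5 : v ≤ 2 * N := by omega
            have h6 : (v : ℝ) ≤ 2 * N := by exact_mod_cast h5
            have h7 : (0 : ℝ) < N := by
              have : 0 < N := by omega
              exact_mod_cast this
            rw [div_le_div_iff₀ h7 hvp]
            linarith
          refine (Finset.sum_le_card_nsmul _ _ _ h4).trans (le_of_eq ?_)
          rw [Nat.card_Ioc, nsmul_eq_mul]
          congr 2
          omega
        have h5 : θ * H / v ≤ ∑ n ∈ Finset.Ioc (v - H) v, b n / n := by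
          have h6 : (∑ n ∈ Finset.Ioc (v - H) v, b n) / v ≤
              ∑ n ∈ Finset.Ioc (v - H) v, b n / n := by
            rw [Finset.sum_div]
            refine Finset.sum_le_sum fun n hn => ?_
            rw [Finset.mem_Ioc] at hn
            have h7 : (0 : ℝ) < n := by
              have : 0 < n := by omega
              exact_mod_cast this
            exact div_le_div_of_nonneg_left (hb n) h7 (by exact_mod_cast hn.2)
          exact (div_le_div_of_nonneg_right hH3.le hvp.le).trans h6
        have h8 : ∑ n ∈ Finset.Icc ((x + 1) / 2) (v - H), b n / n +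
            ∑ n ∈ Finset.Ioc (v - H) v, b n / n ≤ ∑ n ∈ Finset.Icc ((x + 1) / 2) v, b n / n := by
          rw [← Finset.sum_union]
          · refine Finset.sum_le_sum_of_subset_of_nonneg ?_ (fun n _ _ => hbn n)
            intro N hN
            rw [Finset.mem_union, Finset.mem_Icc, Finset.mem_Ioc] at hN
            rw [Finset.mem_Icc]
            omega
          · rw [Finset.disjoint_left]
            intro N hN hN'
            rw [Finset.mem_Icc] at hN
            rw [Finset.mem_Ioc] at hN'
            omega
        have h9 : (H : ℝ) * (2 / v) ≤ 2 / θ * ∑ n ∈ Finset.Ioc (v - H) v, b n / n := by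
          have h10 := mul_le_mul_of_nonneg_left h5 h2θ
          refine le_trans (le_of_eq ?_) h10
          field_simp
        calc ∑ N ∈ S.filter (fun N => N ≤ v), (1 : ℝ) / N
            ≤ 2 / θ * ∑ n ∈ Finset.Icc ((x + 1) / 2) (v - H), b n / n +
              2 / θ * ∑ n ∈ Finset.Ioc (v - H) v, b n / n :=
              h2.trans (add_le_add h1 (h3.trans h9))
          _ = 2 / θ * (∑ n ∈ Finset.Icc ((x + 1) / 2) (v - H), b n / n +
              ∑ n ∈ Finset.Ioc (v - H) v, b n / n) := by ring
          _ ≤ _ := mul_le_mul_of_nonneg_left h8 h2θ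
      · rcases Nat.eq_zero_or_pos v with h0 | h0
        · have h1 : S.filter (fun N => N ≤ v) = ∅ := by
            rw [Finset.filter_eq_empty_iff]
            intro N hN
            have := (Finset.mem_Icc.1 (hS hN)).1
            omega
          rw [h1, Finset.sum_empty]
          exact mul_nonneg h2θ (Finset.sum_nonneg fun n _ => hbn n)
        · have h1 := ih (v - 1) (by omega)
          have h2 : S.filter (fun N => N ≤ v) = S.filter (fun N => N ≤ v - 1) := by
            ext N
            rw [Finset.mem_filter, Finset.mem_filter]
            constructor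
            · rintro ⟨h3, h4⟩
              refine ⟨h3, ?_⟩
              have h5 : N ≠ v := fun h => hv (h ▸ h3)
              omega
            · rintro ⟨h3, h4⟩
              exact ⟨h3, by omega⟩
          rw [h2]
          refine h1.trans (mul_le_mul_of_nonneg_left ?_ h2θ)
          refine Finset.sum_le_sum_of_subset_of_nonneg ?_ (fun n _ _ => hbn n)
          exact Finset.Icc_subset_Icc_right (by omega)
  have h1 := key y
  have h2 : S.filter (fun N => N ≤ y) = S :=
    Finset.filter_true_of_mem fun N hN => (Finset.mem_Icc.1 (hS hN)).2
  rwa [h2] at h1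

end Pool.Agent.H3.MCL
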