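import Pool.Agent.H28.MCL.Targets

/-!
# Row WIN: the local gap for two values at distance `Δ`
-/

set_option autoImplicit false

namespace Pool.Agent.H3.MCL

open Pool.Agent.H28.MCL Finset Filter

/-- **Row WIN.** -/
theorem win (h : T_TLZ) (hS : T_SYM) : T_WIN := by
  intro k δ hδ
  obtain ⟨κ, hκ0, hκ1, H⟩ := h (2 * k) δ hδ
  refine ⟨κ, hκ0, hκ1, fun S W a Δ hne hcard hW hWe hΔ => ?_⟩
  obtain ⟨S', h1, h2, h3⟩ := hS S Δ hne hΔ
  obtain ⟨h₀, h4⟩ := H S' W a h1 (h2.trans (Nat.mul_le_mul_left 2 hcard)) hW hWe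
  have h5 : (fun y => gs S y * gs S (y + Δ)) = gs S' := funext h3
  rw [h5]
  exact ⟨h₀, h4⟩

end Pool.Agent.H3.MCL
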